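import Pool.Agent.Lib.NG5.Defs

/-!
# NG9 / Ns5: no product of the five polynomials is a constant times a square if the characteristic is not 2 or 5

With index 1: the root 0 is simple. With index 0 and not 1: `D = 4X^4+1` is squarefree, so `D` divides the product of the others, which
divides `X^4-1`, and `D - 4(X^4-1) = 5`. Otherwise the product divides the squarefree `X^4-1` and is not constant.
-/

set_option autoImplicit false

namespace Pool.Agent.Lib.NG9

open Polynomial

/-- the five polynomials -/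
noncomputable def PP5 (F : Type) [Field F] : Fin 5 → F[X] :=
  ![4 * X ^ 4 + 1, -(X * (2 * X ^ 2 + 1) * (2 * X ^ 2 + 2 * X + 1)), -(1 + X), 1 + X ^ 2, 1 - X]

private theorem ns_ne (F : Type) [Field F] (i : Fin 5) : PP5 F i ≠ 0 := by
  have h01 : ∀ p : F[X], p.eval 0 ≠ 0 → p ≠ 0 := by
    rintro p hp rfl
    exact hp eval_zero
  fin_cases i
  · refine h01 _ ?_
    simp [PP5]
  · have e : PP5 F 1 = X * (-((2 * X ^ 2 + 1) * (2 * X ^ 2 + 2 * X + 1))) := by
      simp only [PP5, Matrix.cons_val_one, Matrix.cons_val_zero]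
      ring
    show PP5 F 1 ≠ 0
    rw [e]
    refine mul_ne_zero X_ne_zero (h01 _ ?_)
    simp
  · refine h01 _ ?_
    simp [PP5]
  · refine h01 _ ?_
    simp [PP5]
  · refine h01 _ ?_
    simp [PP5]

private theorem ns_eval (F : Type) [Field F] (i : Fin 5) (hi : i ≠ 1) : (PP5 F i).eval 0 ≠ 0 := by
  fin_cases i
  · simp [PP5]
  · exact absurd rfl hi
  · simp [PP5]
  · simp [PP5]
  · simp [PP5]

/-- `2 ≠ 0`: the polynomial `X^4 - 1` is separable -/
private theorem ns_sepX (F : Type) [Field F] (h2 : (2 : F) ≠ 0) : (X ^ 4 - 1 : F[X]).Separable := by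
  have h4 : (4 : F) ≠ 0 := by
    have : (4 : F) = 2 * 2 := by norm_num
    rw [this]
    exact mul_ne_zero h2 h2
  refine ⟨-1, C (4 : F)⁻¹ * X, ?_⟩
  have hC : (4 : F[X]) = C (4 : F) := (map_ofNat (C : F →+* F[X]) 4).symm
  have e : derivative (X ^ 4 - 1 : F[X]) = 4 * X ^ 3 := by
    rw [hC]
    simp only [derivative_sub, derivative_X_pow, derivative_one, sub_zero]
    norm_num
  rw [e]
  have h5 : C (4 : F)⁻¹ * (4 : F[X]) = 1 := by
    rw [hC, ← C_mul, inv_mul_cancel₀ h4, C_1]
  linear_combination (X ^ 4) * h5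

private theorem ns_sep (F : Type) [Field F] (h2 : (2 : F) ≠ 0) : (4 * X ^ 4 + 1 : F[X]).Separable := by
  have h4 : (4 : F) ≠ 0 := by
    have : (4 : F) = 2 * 2 := by norm_num
    rw [this]
    exact mul_ne_zero h2 h2
  refine ⟨1, -(C (4 : F)⁻¹ * X), ?_⟩
  have hC : (4 : F[X]) = C (4 : F) := (map_ofNat (C : F →+* F[X]) 4).symm
  have e : derivative (4 * X ^ 4 + 1 : F[X]) = 4 * (4 * X ^ 3) := by
    rw [hC]
    simp only [derivative_add, derivative_C_mul, derivative_X_pow, derivative_one, add_zero]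
    norm_num
  rw [e]
  have h5 : C (4 : F)⁻¹ * (4 : F[X]) = 1 := by
    rw [hC, ← C_mul, inv_mul_cancel₀ h4, C_1]
  linear_combination (-(4 * X ^ 4)) * h5

private theorem ns_degD (F : Type) [Field F] (h2 : (2 : F) ≠ 0) : (4 * X ^ 4 + 1 : F[X]).natDegree = 4 := by
  have h4 : (4 : F) ≠ 0 := by
    have : (4 : F) = 2 * 2 := by norm_num
    rw [this]
    exact mul_ne_zero h2 h2
  have hC : (4 : F[X]) = C (4 : F) := (map_ofNat (C : F →+* F[X]) 4).symm
  rw [hC]
  compute_degree!

/-- the product of the polynomials with indices in a set without `0, 1` divides `X^4 - 1` -/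
private theorem ns_dvd (F : Type) [Field F] (T : Finset (Fin 5)) (h0 : 0 ∉ T) (h1 : 1 ∉ T) :
    ∏ i ∈ T, PP5 F i ∣ X ^ 4 - 1 := by
  have hsub : T ⊆ {2, 3, 4} := by
    intro i hi
    fin_cases i
    · exact absurd hi h0
    · exact absurd hi h1
    · decide
    · decide
    · decide
  refine (Finset.prod_dvd_prod_of_subset _ _ _ hsub).trans (dvd_of_eq ?_)
  have e : ∏ i ∈ ({2, 3, 4} : Finset (Fin 5)), PP5 F i = PP5 F 2 * (PP5 F 3 * PP5 F 4) := by
    rw [Finset.prod_insert (by decide), Finset.prod_pair (by decide)]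
  rw [e]
  have e2 : PP5 F 2 = -(1 + X) := rfl
  have e3 : PP5 F 3 = 1 + X ^ 2 := rfl
  have e4 : PP5 F 4 = 1 - X := rfl
  rw [e2, e3, e4]
  ring

private theorem ns_unit (F : Type) [Field F] (i : Fin 5) (h0 : i ≠ 0) (h1 : i ≠ 1) : ¬ IsUnit (PP5 F i) := by
  intro hu
  have hd := natDegree_eq_zero_of_isUnit hu
  fin_cases i
  · exact h0 rfl
  · exact h1 rfl
  · have e : (-(1 + X : F[X])).natDegree = 1 := by
      rw [natDegree_neg]
      compute_degree!
    have e' : (-(1 + X : F[X])).natDegree = 0 := hd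
    omega
  · have e : (1 + X ^ 2 : F[X]).natDegree = 2 := by compute_degree!
    have e' : (1 + X ^ 2 : F[X]).natDegree = 0 := hd
    omega
  · have e : (1 - X : F[X]).natDegree = 1 := by
      have : (1 - X : F[X]) = -X + 1 := by ring
      rw [this]
      compute_degree!
    have e' : (1 - X : F[X]).natDegree = 0 := hd
    omega

theorem nonsq5 (F : Type) [Field F] (h2 : (2 : F) ≠ 0) (h5 : (5 : F) ≠ 0) (T : Finset (Fin 5)) (hT : T.Nonempty)
    (c : F) (g : F[X]) : ∏ i ∈ T, PP5 F i ≠ C c * g ^ 2 := by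
  intro h
  have hne : ∏ i ∈ T, PP5 F i ≠ 0 := Finset.prod_ne_zero_iff.mpr fun i _ => ns_ne F i
  have hc : c ≠ 0 := by
    rintro rfl
    rw [h] at hne
    simp at hne
  have hg : g ≠ 0 := by
    rintro rfl
    rw [h] at hne
    simp at hne
  by_cases h1 : (1 : Fin 5) ∈ T
  · -- the root `0` is simple
    rw [← Finset.mul_prod_erase T _ h1] at h
    have e : PP5 F 1 = X * (-((2 * X ^ 2 + 1) * (2 * X ^ 2 + 2 * X + 1))) := by
      simp only [PP5, Matrix.cons_val_one, Matrix.cons_val_zero]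
      ring
    rw [e, mul_assoc] at h
    set k : F[X] := -((2 * X ^ 2 + 1) * (2 * X ^ 2 + 2 * X + 1)) * ∏ i ∈ T.erase 1, PP5 F i with hk
    have hk0 : k.eval 0 ≠ 0 := by
      rw [hk, eval_mul, eval_prod]
      refine mul_ne_zero ?_ (Finset.prod_ne_zero_iff.mpr fun i hi => ns_eval F i (Finset.ne_of_mem_erase hi))
      simp
    have h3 : c * g.eval 0 ^ 2 = 0 := by
      have h4 := congrArg (eval 0) h
      simp only [eval_mul, eval_X, zero_mul, eval_C, eval_pow] at h4
      exact h4.symm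
    have h4 : g.eval 0 = 0 := by
      rcases mul_eq_zero.mp h3 with h5 | h5
      · exact absurd h5 hc
      · exact pow_eq_zero_iff (two_ne_zero) |>.mp h5
    obtain ⟨g', rfl⟩ := (dvd_iff_isRoot (p := g) (a := 0)).mpr h4
    rw [C_0, sub_zero] at h
    have h5 : k = C c * X * g' ^ 2 := by
      have h6 : X * k = X * (C c * X * g' ^ 2) := by rw [h]; ring
      exact mul_left_cancel₀ X_ne_zero h6
    apply hk0
    rw [h5]
    simp
  · by_cases h0 : (0 : Fin 5) ∈ T
    · rw [← Finset.mul_prod_erase T _ h0] at h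
      have e : PP5 F 0 = 4 * X ^ 4 + 1 := rfl
      rw [e] at h
      have hE : ∏ i ∈ T.erase 0, PP5 F i ≠ 0 := Finset.prod_ne_zero_iff.mpr fun i _ => ns_ne F i
      set D : F[X] := 4 * X ^ 4 + 1 with hD
      have hD4 : D.natDegree = 4 := ns_degD F h2
      have hD0 : D ≠ 0 := by
        intro h3
        rw [h3] at hD4
        simp at hD4
      have hsq : Squarefree D := (ns_sep F h2).squarefree
      have h3 : D ∣ g ^ 2 := by
        have h4 : D ∣ C c * g ^ 2 := ⟨_, h.symm⟩
        exact (IsUnit.dvd_mul_left (isUnit_C.mpr hc.isUnit)).mp h4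
      have h4 : D ∣ g := (hsq.dvd_pow_iff_dvd two_ne_zero).mp h3
      obtain ⟨g', rfl⟩ := h4
      have h5' : ∏ i ∈ T.erase 0, PP5 F i = D * (C c * g' ^ 2) := by
        have h6 : D * ∏ i ∈ T.erase 0, PP5 F i = D * (D * (C c * g' ^ 2)) := by rw [h]; ring
        exact mul_left_cancel₀ hD0 h6
      have h6 : D ∣ X ^ 4 - 1 :=
        (Dvd.intro _ h5'.symm).trans (ns_dvd F _ (Finset.notMem_erase 0 T) fun hm => h1 (Finset.mem_of_mem_erase hm))
      have h7 : D ∣ C (5 : F) := by
        have hC : (C (5 : F) : F[X]) = 5 := map_ofNat (C : F →+* F[X]) 5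
        have e7 : (C (5 : F) : F[X]) = D - 4 * (X ^ 4 - 1) := by
          rw [hC, hD]
          ring
        rw [e7]
        exact dvd_sub dvd_rfl (h6.mul_left 4)
      have h8 := natDegree_le_of_dvd h7 (C_ne_zero.mpr h5)
      rw [natDegree_C] at h8
      omega
    · have hsq : Squarefree (∏ i ∈ T, PP5 F i) :=
        (ns_sepX F h2).squarefree.squarefree_of_dvd (ns_dvd F T h0 h1)
      have hu : IsUnit g := hsq g ⟨C c, by rw [h]; ring⟩
      have hu2 : IsUnit (∏ i ∈ T, PP5 F i) := by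
        rw [h]
        exact (isUnit_C.mpr hc.isUnit).mul (hu.pow 2)
      obtain ⟨i, hi⟩ := hT
      exact ns_unit F i (fun e => h0 (e ▸ hi)) (fun e => h1 (e ▸ hi))
        (isUnit_of_dvd_unit (Finset.dvd_prod_of_mem _ hi) hu2)

end Pool.Agent.Lib.NG9
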