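import Pool.Agent.Lib.NG8.DirP
import Pool.Agent.Lib.NG8.EigP
import Pool.Agent.Lib.NG8.SymP
import Pool.Agent.Lib.NG8.TwoP
import Pool.Agent.Lib.NG5.Key
import Pool.Agent.Lib.NG5.Bic
import Pool.Agent.Lib.NG5.Norm
import Pool.Agent.Lib.NG9.Fx5

/-!
# NG9 / As5: the bicliques on 18 vertices for a good parameter (adapts NG8 / AsmP)

The 14 points of NG8 and the two fixed points `y = ± 1/e`, `e^2 = 1 - α`.
-/

set_option autoImplicit false

namespace Pool.Agent.Lib.NG9

open SimpleGraph Pool.Agent.Lib Pool.Agent.Lib.MP_f4a4e4_co.NGX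

theorem asm5 {F K : Type} [Field F] [Field K] [Finite K] [Algebra F K] (hK : Module.finrank F K = 4) (α : F)
    (hg : NG8.Good2 F α) (e : F) (he0 : e ≠ 0) (he : e ^ 2 = 1 - α) (hF4 : 4 ≤ Nat.card F) (a b : ℕ) (ha : a ≤ 8)
    (hab : a + b = 18) :
    completeBipartiteGraph (Fin a) (Fin b) ⊑ NormGraph F K := by
  classical
  obtain ⟨φ, c1, c2⟩ := NG5.exists_cyc F K hK
  obtain ⟨hgA, hns1, hns2, z, hz, hzm, hns3⟩ := hg
  obtain ⟨σ, hσ, f, ω, u, hf, hω, hσω, hu0, hu, hσu⟩ := NG8.dir2 φ c1 c2 α hgA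
  obtain ⟨E, hE8, hEn, hE⟩ := NG8.eight2 σ hσ α hgA f ω u hf hω hσω hu0 hu hσu
  have h2 := hgA.1
  have hz1 : z ^ 2 + 1 ≠ 0 := fun h => hns3 (by rw [h]; exact IsSquare.zero)
  have hα1 : 1 + α ^ 2 ≠ 0 := fun h => hns2 (by rw [h]; exact IsSquare.zero)
  obtain ⟨t, ht⟩ : ∃ t : F, t ^ 2 = (z ^ 2 + 1) * (1 + α ^ 2) := by
    haveI : Finite F := Finite.of_injective (algebraMap F K) (algebraMap F K).injective
    haveI := Fintype.ofFinite F
    have e1 : quadraticChar F ((z ^ 2 + 1) * (1 + α ^ 2)) = 1 := by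
      rw [map_mul, quadraticChar_neg_one_iff_not_isSquare.2 hns3,
        quadraticChar_neg_one_iff_not_isSquare.2 hns2]
      norm_num
    obtain ⟨t, ht⟩ := (quadraticChar_one_iff_isSquare (mul_ne_zero hz1 hα1)).1 e1
    exact ⟨t, by rw [ht, sq]⟩
  obtain ⟨Q, hQ4, hQ⟩ := NG8.sym4 σ hσ α hgA f ω u hf hω hσω hu0 hu hσu z t hz hzm hz1 hα1 ht
  obtain ⟨W, hW2, hW'⟩ := neg_points σ hσ α h2 hns1
  have hW : ∀ y ∈ W, y ≠ 0 ∧ σ y = algebraMap F K α * y + y⁻¹ ∧ σ (σ y) = y := fun y hy =>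
    ⟨(hW' y hy).1, (hW' y hy).2.1, by rw [(hW' y hy).2.2, map_neg, (hW' y hy).2.2, neg_neg]⟩
  obtain ⟨V, hV2, hV⟩ := fix_points (K := K) σ α e h2 he0 he
  have hα : α ≠ 0 := by
    intro h0
    obtain ⟨e, he0, he⟩ := hgA.2.2
    rw [h0, zero_mul, zero_mul, neg_zero] at he
    exact he0 ((pow_eq_zero_iff two_ne_zero).1 he)
  have hα' : algebraMap F K α ≠ 0 := fun h => hα ((algebraMap F K).injective (by rw [h, map_zero]))
  have h2K : (2 : K) ≠ 0 := by
    intro h
    apply h2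
    apply (algebraMap F K).injective
    rw [map_ofNat, map_zero, h]
  have hdisj1 : Disjoint E Q := Finset.disjoint_left.2 fun y h1 h2 => (hE y h1).2.2.2 (hQ y h2).2.2
  have hdisj2 : Disjoint (E ∪ Q) W := by
    refine Finset.disjoint_left.2 fun y h1 h3 => ?_
    rcases Finset.mem_union.1 h1 with h | h
    · exact (hE y h).2.2.1 (hW y h3).2.2
    · have e1 := (hQ y h).2.2
      rw [(hW y h3).2.2] at e1
      have e2 : 2 * y = 0 := by linear_combination e1
      rcases mul_eq_zero.1 e2 with h5 | h5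
      · exact h2K h5
      · exact (hQ y h).1 h5
  have hWV : ∀ y ∈ W, σ y ≠ y := by
    intro y hy h
    have e1 := (hW y hy).1
    have e3 := (hW' y hy).2.2
    rw [h] at e3
    have e2 : 2 * y = 0 := by linear_combination e3
    rcases mul_eq_zero.1 e2 with h5 | h5
    · exact h2K h5
    · exact e1 h5
  have hdisj3 : Disjoint (E ∪ Q ∪ W) V := by
    refine Finset.disjoint_left.2 fun y h1 h3 => ?_
    have e0 : σ (σ y) = y := by rw [(hV y h3).2.2, (hV y h3).2.2]
    rcases Finset.mem_union.1 h1 with h4 | h4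
    · rcases Finset.mem_union.1 h4 with h | h
      · exact (hE y h).2.2.1 e0
      · have e1 := (hQ y h).2.2
        rw [e0] at e1
        have e2 : 2 * y = 0 := by linear_combination e1
        rcases mul_eq_zero.1 e2 with h5 | h5
        · exact h2K h5
        · exact (hQ y h).1 h5
    · exact hWV y h4 (hV y h3).2.2
  have hU : (E ∪ Q ∪ W ∪ V).card = 16 := by
    rw [Finset.card_union_of_disjoint hdisj3, Finset.card_union_of_disjoint hdisj2,
      Finset.card_union_of_disjoint hdisj1, hE8, hQ4, hW2, hV2]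
  have hUy : ∀ y ∈ E ∪ Q ∪ W ∪ V, y ≠ 0 ∧ σ y = algebraMap F K α * y + y⁻¹ := by
    intro y hy
    rcases Finset.mem_union.1 hy with hy | hy
    swap
    · exact ⟨(hV y hy).1, (hV y hy).2.1⟩
    rcases Finset.mem_union.1 hy with h | h
    · rcases Finset.mem_union.1 h with h | h
      · exact ⟨(hE y h).1, (hE y h).2.1⟩
      · exact ⟨(hQ y h).1, (hQ y h).2.1⟩
    · exact ⟨(hW y h).1, (hW y h).2.1⟩
  obtain ⟨A, hAE, hAc⟩ := Finset.exists_subset_card_eq (show a ≤ E.card by rw [hE8]; exact ha)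
  have hAU : A ⊆ E ∪ Q ∪ W ∪ V :=
    hAE.trans (Finset.subset_union_left.trans (Finset.subset_union_left.trans Finset.subset_union_left))
  set ι : K → K := fun y => (algebraMap F K α * y)⁻¹ with hι
  have hinj : Function.Injective ι := by
    intro x y hxy
    exact mul_left_cancel₀ hα' (inv_injective hxy)
  have hι0 : ∀ y, y ≠ 0 → ι y ≠ 0 := fun y hy => inv_ne_zero (mul_ne_zero hα' hy)
  set B : Finset K := insert 0 (((E ∪ Q ∪ W ∪ V) \ A).image ι) with hB
  have h0B : (0 : K) ∉ ((E ∪ Q ∪ W ∪ V) \ A).image ι := by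
    intro h
    obtain ⟨y, hy, hy0⟩ := Finset.mem_image.1 h
    exact hι0 y (hUy y (Finset.mem_sdiff.1 hy).1).1 hy0
  have hBc : B.card = 17 - a := by
    rw [hB, Finset.card_insert_of_notMem h0B, Finset.card_image_of_injective _ hinj,
      Finset.card_sdiff_of_subset hAU, hU, hAc]
    omega
  have hkey : ∀ x ∈ A, ∀ y ∈ (E ∪ Q ∪ W ∪ V) \ A,
      x ≠ ι y ∧ Algebra.norm F (x - ι y) = Algebra.norm F x * (α ^ 4)⁻¹ := by
    intro x hx y hy
    have hy' := Finset.mem_sdiff.1 hy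
    have hxU := hUy x (hAU hx)
    have hyU := hUy y hy'.1
    exact NG5.key σ hσ α hα x y hxU.1 hyU.1 hxU.2 hyU.2 (fun h => hy'.2 (h ▸ hx))
  have hK81 : 256 ≤ Nat.card K := by
    haveI : Module.Finite F K := Module.finite_of_finrank_pos (by rw [hK]; norm_num)
    rw [Module.natCard_eq_pow_finrank (K := F), hK]
    calc 256 = 4 ^ 4 := by norm_num
      _ ≤ Nat.card F ^ 4 := Nat.pow_le_pow_left hF4 4
  have h56 : ∀ a ≤ 8, a * (17 - a) ≤ 72 := by decide
  have main := NG5.bic hK A B (-(1 / α ^ 2)) (fun y => if y = 0 then 1 else (α ^ 4)⁻¹)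
    (neg_ne_zero.2 (one_div_ne_zero (pow_ne_zero 2 hα)))
    (by
      intro y _
      beta_reduce
      split_ifs
      · exact one_ne_zero
      · exact inv_ne_zero (pow_ne_zero 4 hα))
    (by
      intro x hx y hy
      rcases Finset.mem_insert.1 hy with h | h
      · rw [h]
        exact (hUy x (hAU hx)).1
      · obtain ⟨u, hu, rfl⟩ := Finset.mem_image.1 h
        exact (hkey x hx u hu).1)
    (by
      intro x hx y hy
      rcases Finset.mem_insert.1 hy with h | h
      · rw [h, sub_zero, hEn x (hAE hx), if_pos rfl, mul_one]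
      · obtain ⟨u, hu, rfl⟩ := Finset.mem_image.1 h
        rw [(hkey x hx u hu).2, hEn x (hAE hx), if_neg (hι0 u (hUy u (Finset.mem_sdiff.1 hu).1).1)])
    (by
      rw [hAc, hBc]
      have h6 := h56 a ha
      omega)
  have hb : B.card + 1 = b := by omega
  rw [hAc, hb] at main
  exact main

end Pool.Agent.Lib.NG9
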