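import Pool.Agent.Lib.NG9.Al5
import Pool.Agent.Lib.NG9.As5

/-!
# NG9 / Mn5: K_{a,b}, a <= 8, a + b = 18, in NG(q, 5) for every large q prime to 10
-/

set_option autoImplicit false

namespace Pool.Agent.Lib.NG9

open SimpleGraph Pool.Agent.Lib Pool.Agent.Lib.MP_f4a4e4_co.NGX

private theorem five_ne {F : Type} [Field F] [Fintype F] (h : (Fintype.card F).Coprime 10) : (5 : F) ≠ 0 := by
  intro h5
  have h1 : IsCoprime ((Fintype.card F : ℕ) : ℤ) ((10 : ℕ) : ℤ) := Nat.isCoprime_iff_coprime.mpr h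
  obtain ⟨u, v, huv⟩ := h1
  have h2 := congrArg (Int.cast : ℤ → F) huv
  push_cast at h2
  rw [FiniteField.cast_card_eq_zero] at h2
  apply one_ne_zero (α := F)
  rw [← h2]
  linear_combination 2 * (v : F) * h5

theorem ng9 : ∃ q0 : ℕ, ∀ (F K : Type) [Field F] [Field K] [Finite K] [Algebra F K], Module.finrank F K = 4 →
    (Nat.card F).Coprime 10 → q0 ≤ Nat.card F → ∀ a b : ℕ, a ≤ 8 → a + b = 18 →
      completeBipartiteGraph (Fin a) (Fin b) ⊑ NormGraph F K := by
  obtain ⟨q0, h⟩ := exists_alpha5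
  refine ⟨max q0 4, fun F K _ _ _ _ hK hco hq a b ha hab => ?_⟩
  have hF := Finite.of_injective _ (FaithfulSMul.algebraMap_injective F K)
  have := Fintype.ofFinite F
  have h4 : 4 ≤ Nat.card F := (le_max_right _ _).trans hq
  have hq0 : q0 ≤ Nat.card F := (le_max_left _ _).trans hq
  rw [Nat.card_eq_fintype_card] at hco hq0
  have hodd : Fintype.card F % 2 = 1 := by
    have h2 : (Fintype.card F).Coprime 2 := Nat.Coprime.coprime_dvd_right (by norm_num) hco
    exact Nat.odd_iff.mp (Nat.coprime_two_right.mp h2)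
  obtain ⟨α, hα, e, he0, he⟩ := h F hodd (five_ne hco) hq0
  exact asm5 hK α hα e he0 he h4 a b ha hab

end Pool.Agent.Lib.NG9
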